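import Mathlib
import Pool.Agent.Y1.KN.Stm2

/-!
# The kernel of the weighted sum of the translations
-/

set_option linter.unusedSectionVars false
set_option linter.unusedVariables false

namespace Pool.Agent.Y903.KN

open Finset Module Pool.Agent.TH170.MF Pool.Agent.TH170.QC Pool.Agent.TH170.QE
open Pool.Agent.TH170.FW Pool.Agent.TH170.GC Pool.Agent.Y1.KN

variable {G X : Type*} [Group G] [MulAction G X] [Fintype X]

/-- The weighted sum of translations. -/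
noncomputable def mop (γ : X → G) (w : X → ℚ) : (X → ℚ) →ₗ[ℚ] (X → ℚ) :=
  ∑ x, w x • tr (γ x)⁻¹

theorem mop_apply (γ : X → G) (w : X → ℚ) (u : X → ℚ) :
    mop γ w u = ∑ x, w x • tr (γ x)⁻¹ u := by
  simp only [mop, LinearMap.sum_apply, LinearMap.smul_apply]

theorem mop_mem {S : Submodule ℚ (X → ℚ)} (hS : Invariant G S) (γ : X → G) (w : X → ℚ)
    {u : X → ℚ} (hu : u ∈ S) : mop γ w u ∈ S := by
  rw [mop_apply]
  exact S.sum_mem fun x _ => S.smul_mem _ (tr_mem hS _ hu)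

theorem fixedPart_le (x₀ : X) (S : Submodule ℚ (X → ℚ)) : fixedPart G x₀ S ≤ S :=
  fun _ hu => hu.1

theorem tr_fixed {x₀ : X} {S : Submodule ℚ (X → ℚ)} {u : X → ℚ} (hu : u ∈ fixedPart G x₀ S)
    {h : G} (hh : h • x₀ = x₀) : tr h u = u := funext fun x => hu.2 h hh x

/-- The translate of a fixed function depends on the coset only. -/
theorem tr_congr {x₀ : X} {S : Submodule ℚ (X → ℚ)} {u : X → ℚ} (hu : u ∈ fixedPart G x₀ S)
    {δ δ' : G} (h : δ⁻¹ • x₀ = δ'⁻¹ • x₀) : tr δ u = tr δ' u := by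
  have h1 : (δ * δ'⁻¹) • x₀ = x₀ := by rw [mul_smul, ← h, smul_inv_smul]
  have h2 : δ = (δ * δ'⁻¹) * δ' := by group
  rw [h2, ← tr_tr, tr_fixed hu h1]

theorem tr_odd {c : G} {S : Submodule ℚ (X → ℚ)} (ho : AllOdd (fun x : X => c • x) S)
    {s : X → ℚ} (hs : s ∈ S) : tr c s = - s := funext fun x => ho s hs x

/-- An equivariant endomorphism commutes with the weighted sum of the translations. -/
theorem mop_hom {S : Submodule ℚ (X → ℚ)} (hS : Invariant G S) (γ : X → G) (w : X → ℚ)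
    {A : S →ₗ[ℚ] (X → ℚ)} (hA : A ∈ homs G S S) (u : S) :
    mop γ w (A u) = A ⟨mop γ w u, mop_mem hS γ w u.2⟩ := by
  have h1 : (⟨mop γ w u, mop_mem hS γ w u.2⟩ : S) =
      ∑ x, w x • (⟨tr (γ x)⁻¹ (u : X → ℚ), tr_mem hS _ u.2⟩ : S) := by
    apply Subtype.ext
    rw [Submodule.coe_sum]
    change mop γ w u = _
    rw [mop_apply]
    rfl
  rw [h1, map_sum, mop_apply]
  refine sum_congr rfl fun x _ => ?_
  rw [map_smul]
  congr 1
  funext y
  exact (hA.2 (γ x)⁻¹ u ⟨tr (γ x)⁻¹ (u : X → ℚ), tr_mem hS _ u.2⟩ (fun _ => rfl) y).symm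

theorem hom_fixed {x₀ : X} {S : Submodule ℚ (X → ℚ)} {A : S →ₗ[ℚ] (X → ℚ)}
    (hA : A ∈ homs G S S) {u : S} (hu : (u : X → ℚ) ∈ fixedPart G x₀ S) :
    A u ∈ fixedPart G x₀ S := by
  refine ⟨hA.1 u, fun h hh x => ?_⟩
  exact (hA.2 h u u (fun y => (hu.2 h hh y).symm) x).symm

/-- The kernel in the fixed part. -/
noncomputable def kerPart (γ : X → G) (w : X → ℚ) (x₀ : X) (S : Submodule ℚ (X → ℚ)) :
    Submodule ℚ (X → ℚ) := fixedPart G x₀ S ⊓ LinearMap.ker (mop γ w)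

/-- The image of the fixed part. -/
noncomputable def imPart (γ : X → G) (w : X → ℚ) (x₀ : X) (S : Submodule ℚ (X → ℚ)) :
    Submodule ℚ (X → ℚ) := (fixedPart G x₀ S).map (mop γ w)

theorem kerPart_le (γ : X → G) (w : X → ℚ) (x₀ : X) (S : Submodule ℚ (X → ℚ)) :
    kerPart γ w x₀ S ≤ S := inf_le_left.trans (fixedPart_le x₀ S)

theorem imPart_le {S : Submodule ℚ (X → ℚ)} (hS : Invariant G S) (γ : X → G) (w : X → ℚ)
    (x₀ : X) : imPart γ w x₀ S ≤ S := by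
  rintro _ ⟨u, hu, rfl⟩
  exact mop_mem hS γ w hu.1

theorem kerPart_stable {S : Submodule ℚ (X → ℚ)} (hS : Invariant G S) (γ : X → G) (w : X → ℚ)
    (x₀ : X) : DStable G S (kerPart γ w x₀ S) := by
  intro A hA s hs
  refine ⟨hom_fixed hA hs.1, ?_⟩
  change mop γ w (A s) = 0
  rw [mop_hom hS γ w hA]
  have h1 : (⟨mop γ w s, mop_mem hS γ w s.2⟩ : S) = 0 := Subtype.ext hs.2
  rw [h1, map_zero]

theorem imPart_stable {S : Submodule ℚ (X → ℚ)} (hS : Invariant G S) (γ : X → G) (w : X → ℚ)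
    (x₀ : X) : DStable G S (imPart γ w x₀ S) := by
  rintro A hA s ⟨u, hu, hus⟩
  refine ⟨A ⟨u, hu.1⟩, hom_fixed hA hu, ?_⟩
  rw [mop_hom hS γ w hA]
  congr 1
  exact Subtype.ext hus

theorem finrank_kerPart_add (γ : X → G) (w : X → ℚ) (x₀ : X) (S : Submodule ℚ (X → ℚ)) :
    finrank ℚ (kerPart γ w x₀ S) + finrank ℚ (imPart γ w x₀ S) =
      finrank ℚ (fixedPart G x₀ S) := by
  have h1 := LinearMap.finrank_range_add_finrank_ker ((mop γ w).domRestrict (fixedPart G x₀ S))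
  rw [LinearMap.range_domRestrict, LinearMap.ker_domRestrict] at h1
  have h2 : finrank ℚ (kerPart γ w x₀ S) =
      finrank ℚ ((LinearMap.ker (mop γ w)).comap (fixedPart G x₀ S).subtype) := by
    rw [kerPart, ← Submodule.map_comap_subtype, Submodule.finrank_map_subtype_eq]
  rw [h2, add_comm]
  exact h1

/-- The dimension of a nonzero stable space. -/
theorem edim_le_finrank {c : X → X} {S K : Submodule ℚ (X → ℚ)} (hS : S ∈ MinInv G c)
    (hKS : K ≤ S) (hK : DStable G S K) (hK0 : K ≠ ⊥) : edim G S ≤ finrank ℚ K := by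
  obtain ⟨h0, hi, ho, hmin⟩ := hS
  obtain ⟨u, hu, hu0⟩ := (Submodule.ne_bot_iff K).1 hK0
  let Ψ : homs G S S →ₗ[ℚ] K :=
    { toFun := fun A => ⟨A.1 ⟨u, hKS hu⟩, hK A.1 A.2 ⟨u, hKS hu⟩ hu⟩
      map_add' := fun A B => rfl
      map_smul' := fun r A => rfl }
  refine LinearMap.finrank_le_finrank_of_injective (f := Ψ) ?_
  intro A B hAB
  have hC : A.1 - B.1 ∈ homs G S S := (homs G S S).sub_mem A.2 B.2
  have h1 : (A.1 - B.1) ⟨u, hKS hu⟩ = 0 := by
    have h2 : A.1 ⟨u, hKS hu⟩ = B.1 ⟨u, hKS hu⟩ := congrArg Subtype.val hAB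
    rw [LinearMap.sub_apply, h2, sub_self]
  let N : Submodule ℚ (X → ℚ) := (LinearMap.ker (A.1 - B.1)).map S.subtype
  have hN : Invariant G N := by
    rintro γ _ ⟨s, hs, rfl⟩
    refine ⟨⟨fun x => (s : X → ℚ) (γ • x), hi γ s s.2⟩, ?_, rfl⟩
    change (A.1 - B.1) _ = 0
    funext x
    have h2 : (A.1 - B.1) s = 0 := hs
    rw [hC.2 γ s ⟨fun x => (s : X → ℚ) (γ • x), hi γ s s.2⟩ (fun _ => rfl) x, h2]
    rfl
  have hNS : N ≤ S := by
    rintro _ ⟨s, _, rfl⟩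
    exact s.2
  rcases hmin N hN hNS with h | h
  · exfalso
    apply hu0
    have h2 : u ∈ N := ⟨⟨u, hKS hu⟩, h1, rfl⟩
    rw [h] at h2
    exact h2
  · apply Subtype.ext
    refine LinearMap.ext fun s => ?_
    have h2 : (s : X → ℚ) ∈ N := by
      rw [h]
      exact s.2
    obtain ⟨t, ht, hts⟩ := h2
    have h3 : t = s := Subtype.ext hts
    have h4 : (A.1 - B.1) t = 0 := ht
    rw [h3, LinearMap.sub_apply, sub_eq_zero] at h4
    exact h4

section step1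

variable [Fintype G] [DecidableEq X] [MulAction.IsPretransitive G X]

/-- The Riesz representative. -/
theorem exists_riesz (S : Submodule ℚ (X → ℚ)) (φ : (X → ℚ) →ₗ[ℚ] ℚ) :
    ∃ u ∈ S, ∀ s ∈ S, dot X s u = φ s := by
  classical
  refine ⟨proj S (fun y => φ (Pi.single y 1)), proj_mem S _, fun s hs => ?_⟩
  have h1 := dot_sub_proj S hs (fun y => φ (Pi.single y 1))
  rw [map_sub, sub_eq_zero] at h1
  rw [← h1, dot_apply]
  have h2 : s = ∑ y, s y • (Pi.single y (1 : ℚ) : X → ℚ) := by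
    funext z
    rw [Finset.sum_apply]
    simp only [Pi.smul_apply, smul_eq_mul, Pi.single_apply, mul_ite, mul_one, mul_zero]
    rw [Finset.sum_ite_eq Finset.univ z]
    simp
  conv_rhs => rw [h2, map_sum]
  refine sum_congr rfl fun y _ => ?_
  rw [map_smul, smul_eq_mul]

theorem kerPart_ne_bot {M : X → ℤ} {c : G} {S : Submodule ℚ (X → ℚ)}
    (hS : S ∈ MinInv G (fun x : X => c • x)) (x₀ : X) {γ : X → G} (hγ : ∀ x, γ x • x₀ = x)
    {f : X → ℤ} (hf : f ∈ orthClassW M c (killers G (S : Set (X → ℚ)))) :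
    kerPart γ (fun x => ((f x * M x : ℤ) : ℚ)) x₀ S ≠ ⊥ := by
  obtain ⟨h0, hi, ho, hmin⟩ := hS
  obtain ⟨hfo, S', ⟨h0', hi', ho', hmin'⟩, hK, hsum⟩ := hf
  obtain ⟨A, hA, hAS, s₀, hs₀, hne⟩ := exists_equivariant hi h0 hi' h0' hK.symm
  have hA' : ∀ (δ : G) (u : X → ℚ), A (tr δ u) = tr δ (A u) := fun δ u => funext (hA δ u)
  obtain ⟨u, huS, hu⟩ := exists_riesz S ((LinearMap.proj x₀ : (X → ℚ) →ₗ[ℚ] ℚ) ∘ₗ A)
  have hu' : ∀ s ∈ S, dot X s u = A s x₀ := hu
  rw [Submodule.ne_bot_iff]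
  refine ⟨u, ⟨⟨huS, fun h hh => ?_⟩, ?_⟩, ?_⟩
  · have h1 : tr h u ∈ S := tr_mem hi h huS
    have h2 : dot X (tr h u - u) (tr h u - u) = 0 := by
      have h3 : ∀ s ∈ S, dot X s (tr h u) = dot X s u := by
        intro s hs
        have h4 := dot_tr h⁻¹ s u
        rw [inv_inv] at h4
        rw [← h4, hu' _ (tr_mem hi _ hs), hA', tr_apply, hu' s hs]
        have h5 : h⁻¹ • x₀ = x₀ := by rw [inv_smul_eq_iff, hh]
        rw [h5]
      rw [map_sub, h3 _ (S.sub_mem h1 huS), sub_self]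
    have h5 := dot_self h2
    rw [sub_eq_zero] at h5
    exact fun x => congrFun h5 x
  · change mop γ (fun x => ((f x * M x : ℤ) : ℚ)) u = 0
    have h1 : mop γ (fun x => ((f x * M x : ℤ) : ℚ)) u ∈ S := mop_mem hi _ _ huS
    have h2 : ∀ s ∈ S, dot X s (mop γ (fun x => ((f x * M x : ℤ) : ℚ)) u) = 0 := by
      intro s hs
      rw [mop_apply, map_sum, ← hsum (A s) (hAS s)]
      refine sum_congr rfl fun x _ => ?_
      rw [map_smul, smul_eq_mul]
      congr 1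
      have h4 := dot_tr (γ x) s u
      rw [← h4, hu' _ (tr_mem hi _ hs), hA', tr_apply, hγ]
    exact dot_self (h2 _ h1)
  · rintro rfl
    apply hne
    funext x
    have h1 := hu' (tr (γ x) s₀) (tr_mem hi _ hs₀)
    rw [map_zero, hA', tr_apply, hγ] at h1
    rw [← h1]
    rfl

end step1

end Pool.Agent.Y903.KN
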