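import Mathlib
import Pool.Agent.Y903.KN.Alg
import Pool.Agent.Y655.KN.Signs

/-!
# The real matrices of the translations and projections
-/

set_option linter.unusedSectionVars false
set_option linter.unusedVariables false

namespace Pool.Agent.Y903.KN

open Matrix Finset Module Pool.Agent.TH170.MF Pool.Agent.TH170.QC Pool.Agent.TH170.QE
open Pool.Agent.TH170.FW Pool.Agent.TH170.GC Pool.Agent.Y1.KN

section mat

variable {X : Type} [Fintype X] [DecidableEq X]

/-- The real matrix of a linear map. -/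
noncomputable def mt (L : (X → ℚ) →ₗ[ℚ] (X → ℚ)) : Matrix X X ℝ :=
  (LinearMap.toMatrix' L).map (Rat.castHom ℝ)

theorem mt_apply (L : (X → ℚ) →ₗ[ℚ] (X → ℚ)) (i j : X) :
    mt L i j = ((L (Pi.single j 1) i : ℚ) : ℝ) := by
  have h1 : LinearMap.toMatrix' L i j = L (Pi.single j 1) i := by
    rw [LinearMap.toMatrix'_apply]
  rw [← h1]
  rfl

theorem mt_comp (L L' : (X → ℚ) →ₗ[ℚ] (X → ℚ)) : mt (L ∘ₗ L') = mt L * mt L' := by
  rw [mt, LinearMap.toMatrix'_comp, Matrix.map_mul]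
  rfl

theorem mt_zero : mt (0 : (X → ℚ) →ₗ[ℚ] (X → ℚ)) = 0 := by
  ext i j
  rw [mt_apply]
  simp

theorem mt_add (L L' : (X → ℚ) →ₗ[ℚ] (X → ℚ)) : mt (L + L') = mt L + mt L' := by
  ext i j
  rw [Matrix.add_apply, mt_apply, mt_apply, mt_apply]
  simp

theorem mt_sub (L L' : (X → ℚ) →ₗ[ℚ] (X → ℚ)) : mt (L - L') = mt L - mt L' := by
  ext i j
  rw [Matrix.sub_apply, mt_apply, mt_apply, mt_apply]
  simp

theorem mt_neg (L : (X → ℚ) →ₗ[ℚ] (X → ℚ)) : mt (-L) = - mt L := by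
  ext i j
  rw [Matrix.neg_apply, mt_apply, mt_apply]
  simp

theorem mt_smul (q : ℚ) (L : (X → ℚ) →ₗ[ℚ] (X → ℚ)) : mt (q • L) = (q : ℝ) • mt L := by
  ext i j
  rw [Matrix.smul_apply, mt_apply, mt_apply]
  simp

theorem mt_sum {κ : Type*} (s : Finset κ) (L : κ → (X → ℚ) →ₗ[ℚ] (X → ℚ)) :
    mt (∑ k ∈ s, L k) = ∑ k ∈ s, mt (L k) := by
  classical
  induction s using Finset.induction_on with
  | empty => rw [sum_empty, sum_empty, mt_zero]
  | insert a s ha ih => rw [sum_insert ha, sum_insert ha, mt_add, ih]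

theorem mt_one : mt (LinearMap.id : (X → ℚ) →ₗ[ℚ] (X → ℚ)) = 1 := by
  rw [mt, LinearMap.toMatrix'_id]
  simp

theorem trace_mt (L : (X → ℚ) →ₗ[ℚ] (X → ℚ)) :
    (mt L).trace = ((LinearMap.trace ℚ (X → ℚ) L : ℚ) : ℝ) := by
  rw [LinearMap.trace_eq_matrix_trace ℚ (Pi.basisFun ℚ X), LinearMap.toMatrix_eq_toMatrix', mt,
    Matrix.trace, Matrix.trace]
  push_cast
  rfl

theorem mt_transpose {L L' : (X → ℚ) →ₗ[ℚ] (X → ℚ)}
    (h : ∀ u v, dot X (L u) v = dot X u (L' v)) : (mt L)ᵀ = mt L' := by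
  ext i j
  rw [Matrix.transpose_apply, mt_apply, mt_apply]
  have h1 := h (Pi.single i 1) (Pi.single j 1)
  rw [dot_apply, dot_apply] at h1
  simp only [Pi.single_apply, mul_ite, mul_one, mul_zero, ite_mul, one_mul, zero_mul,
    Finset.sum_ite_eq', Finset.mem_univ, if_true] at h1
  have h2 : (fun k => if k = i then (1 : ℚ) else 0) = Pi.single i 1 := by
    funext k
    rw [Pi.single_apply]
  have h3 : (fun k => if k = j then (1 : ℚ) else 0) = Pi.single j 1 := by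
    funext k
    rw [Pi.single_apply]
  rw [h1]

theorem mt_proj_transpose (K : Submodule ℚ (X → ℚ)) : (mt (proj K))ᵀ = mt (proj K) :=
  mt_transpose (proj_symm K)

theorem mt_proj_mul (K : Submodule ℚ (X → ℚ)) : mt (proj K) * mt (proj K) = mt (proj K) := by
  rw [← mt_comp, proj_comp_of_le le_rfl]

theorem oproj (K : Submodule ℚ (X → ℚ)) : OProj (mt (proj K)) :=
  ⟨mt_proj_mul K, mt_proj_transpose K⟩

theorem mt_proj_comp {K S : Submodule ℚ (X → ℚ)} (h : K ≤ S) :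
    mt (proj S) * mt (proj K) = mt (proj K) := by
  rw [← mt_comp, proj_comp_of_le h]

theorem mt_proj_comp' {K S : Submodule ℚ (X → ℚ)} (h : K ≤ S) :
    mt (proj K) * mt (proj S) = mt (proj K) := by
  have h1 := congrArg Matrix.transpose (mt_proj_comp h)
  rwa [Matrix.transpose_mul, mt_proj_transpose, mt_proj_transpose] at h1

theorem oproj_sub {K S : Submodule ℚ (X → ℚ)} (h : K ≤ S) :
    OProj (mt (proj S) - mt (proj K)) := by
  constructor
  · rw [sub_mul, mul_sub, mul_sub, mt_proj_mul, mt_proj_mul, mt_proj_comp h, mt_proj_comp' h,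
      sub_self, sub_zero]
  · rw [Matrix.transpose_sub, mt_proj_transpose, mt_proj_transpose]

theorem contr_mul {V W : Matrix X X ℝ} (hV : Contr V) (hW : Contr W) : Contr (V * W) := by
  intro u
  rw [← Matrix.mulVec_mulVec]
  exact (hV _).trans (hW u)

theorem contr_smul {V : Matrix X X ℝ} (hV : Contr V) {a : ℝ} (ha : a ^ 2 ≤ 1) :
    Contr (a • V) := by
  intro u
  rw [Matrix.smul_mulVec, dotProduct_smul, smul_dotProduct, smul_eq_mul, smul_eq_mul, ← mul_assoc,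
    ← sq]
  refine le_trans ?_ (hV u)
  have := Pool.Agent.Y655.KN.sq_nn (V *ᵥ u)
  nlinarith

theorem trace_nonneg {Q L : Matrix X X ℝ} (hQ : OProj Q) : 0 ≤ (Q * L * Lᵀ).trace := by
  have h1 : (Q * L * Lᵀ).trace = ((Q * L) * (Q * L)ᵀ).trace := by
    rw [Matrix.transpose_mul, hQ.symm, ← Matrix.mul_assoc, Matrix.trace_mul_comm (Q * L * Lᵀ) Q,
      ← Matrix.mul_assoc, ← Matrix.mul_assoc, hQ.idem]
  rw [h1, Matrix.trace]
  refine sum_nonneg fun i _ => ?_
  rw [Matrix.diag_apply, Matrix.mul_apply]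
  refine sum_nonneg fun j _ => ?_
  rw [Matrix.transpose_apply]
  exact mul_self_nonneg _

end mat

section trans

variable {G X : Type} [Group G] [MulAction G X] [Fintype X] [DecidableEq X]

theorem mt_tr_transpose (γ : G) : (mt (tr γ : (X → ℚ) →ₗ[ℚ] (X → ℚ)))ᵀ = mt (tr γ⁻¹) :=
  mt_transpose (dot_tr γ)

theorem contr_tr (γ : G) : Contr (mt (tr γ : (X → ℚ) →ₗ[ℚ] (X → ℚ))) := by
  intro u
  have h1 : mt (tr γ⁻¹ : (X → ℚ) →ₗ[ℚ] (X → ℚ)) * mt (tr γ) = 1 := by
    rw [← mt_comp, ← mt_one]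
    congr 1
    refine LinearMap.ext fun v => ?_
    exact tr_inv_tr γ v
  rw [Matrix.dotProduct_mulVec, ← Matrix.mulVec_transpose, Matrix.mulVec_mulVec, mt_tr_transpose,
    h1, Matrix.one_mulVec]

end trans

end Pool.Agent.Y903.KN
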