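import Mathlib
import Pool.Agent.Y903.KN.Mat

/-!
# The traces of the products of the projections and their conjugates
-/

set_option linter.unusedSectionVars false
set_option linter.unusedVariables false

namespace Pool.Agent.Y903.KN

open Matrix Finset Module Pool.Agent.TH170.MF Pool.Agent.TH170.QC Pool.Agent.TH170.QE
open Pool.Agent.TH170.FW Pool.Agent.TH170.GC Pool.Agent.Y1.KN

variable {G X : Type} [Group G] [MulAction G X] [Fintype X] [DecidableEq X]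

theorem tr_congr_neg {c : G} (hc : c * c = 1) {x₀ : X} {S : Submodule ℚ (X → ℚ)}
    (hS : Invariant G S) (ho : AllOdd (fun x : X => c • x) S) {u : X → ℚ}
    (hu : u ∈ fixedPart G x₀ S) {δ δ' : G} (h : δ⁻¹ • x₀ = c • δ'⁻¹ • x₀) :
    tr δ u = - tr δ' u := by
  have hc' : c⁻¹ = c := inv_eq_of_mul_eq_one_left hc
  have h1 : δ⁻¹ • x₀ = (δ' * c)⁻¹ • x₀ := by rw [_root_.mul_inv_rev, mul_smul, hc', h]
  rw [tr_congr hu h1, ← tr_tr, tr_odd ho (tr_mem hS _ hu.1)]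

/-- The matrix of the translation after the projection. -/
noncomputable def lam (K : Submodule ℚ (X → ℚ)) (δ : G) : Matrix X X ℝ := mt (tr δ ∘ₗ proj K)

theorem lam_congr {x₀ : X} {S K : Submodule ℚ (X → ℚ)} (hK : K ≤ fixedPart G x₀ S) {δ δ' : G}
    (h : δ⁻¹ • x₀ = δ'⁻¹ • x₀) : lam K δ = lam K δ' := by
  rw [lam, lam]
  congr 1
  refine LinearMap.ext fun u => ?_
  exact tr_congr (hK (proj_mem K u)) h

theorem lam_neg {c : G} (hc : c * c = 1) {x₀ : X} {S K : Submodule ℚ (X → ℚ)}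
    (hS : Invariant G S) (ho : AllOdd (fun x : X => c • x) S) (hK : K ≤ fixedPart G x₀ S)
    {δ δ' : G} (h : δ⁻¹ • x₀ = c • δ'⁻¹ • x₀) : lam K δ = - lam K δ' := by
  rw [lam, lam, ← mt_neg]
  congr 1
  refine LinearMap.ext fun u => ?_
  exact tr_congr_neg hc hS ho (hK (proj_mem K u)) h

theorem lam_mul (K : Submodule ℚ (X → ℚ)) (δ : G) :
    lam K δ * (lam K δ)ᵀ = mt (tr δ ∘ₗ proj K ∘ₗ tr δ⁻¹) := by
  rw [lam, mt_comp, Matrix.transpose_mul, mt_proj_transpose, mt_tr_transpose, mt_comp, mt_comp,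
    Matrix.mul_assoc, ← Matrix.mul_assoc (mt (proj K)), mt_proj_mul]

/-- The trace. -/
noncomputable def phi (Q : Matrix X X ℝ) (K : Submodule ℚ (X → ℚ)) (δ : G) : ℝ :=
  (Q * lam K δ * (lam K δ)ᵀ).trace

theorem phi_nonneg {Q : Matrix X X ℝ} (hQ : OProj Q) (K : Submodule ℚ (X → ℚ)) (δ : G) :
    0 ≤ phi Q K δ := trace_nonneg hQ

variable [Fintype G]

theorem sum_phi (Q : Matrix X X ℝ) (K : Submodule ℚ (X → ℚ)) :
    ∑ δ : G, phi Q K δ = (Q * mt (avg G K)).trace := by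
  rw [avg, mt_sum, Matrix.mul_sum, Matrix.trace_sum]
  refine sum_congr rfl fun δ _ => ?_
  rw [phi, Matrix.mul_assoc, lam_mul]

variable [MulAction.IsPretransitive G X]

theorem sum_phi_transversal {c : G} (hc : c * c = 1) {x₀ : X} {S K : Submodule ℚ (X → ℚ)}
    (hS : Invariant G S) (ho : AllOdd (fun x : X => c • x) S) (hK : K ≤ fixedPart G x₀ S)
    {T : Finset X} (hT : ∀ x, x ∈ T ↔ c • x ∉ T) {γ : X → G} (hγ : ∀ x, γ x • x₀ = x)
    (Q : Matrix X X ℝ) :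
    ∑ δ : G, phi Q K δ = stabCard G x₀ * (2 * ∑ x ∈ T, phi Q K (γ x)⁻¹) := by
  classical
  have hcx : ∀ x : X, c • c • x = x := fun x => by rw [← mul_smul, hc, one_smul]
  have h1 : ∑ δ : G, phi Q K δ = ∑ δ : G, phi Q K (γ (δ • x₀))⁻¹ := by
    rw [← Equiv.sum_comp (Equiv.inv G) (fun δ : G => phi Q K δ)]
    refine sum_congr rfl fun δ _ => ?_
    rw [Equiv.inv_apply, phi, phi]
    have h2 : lam K δ⁻¹ = lam K (γ (δ • x₀))⁻¹ := by
      refine lam_congr hK ?_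
      rw [inv_inv, inv_inv, hγ]
    rw [h2]
  rw [h1, sum_orbit x₀ (card_fiber' x₀) (fun x => phi Q K (γ x)⁻¹), nsmul_eq_mul,
    sum_transversal (c := fun x : X => c • x) hcx hT]
  congr 1
  rw [mul_sum]
  refine sum_congr rfl fun x _ => ?_
  have h2 : lam K (γ (c • x))⁻¹ = - lam K (γ x)⁻¹ := by
    refine lam_neg hc hS ho hK ?_
    rw [inv_inv, inv_inv, hγ, hγ]
  rw [phi, phi, h2, Matrix.transpose_neg, Matrix.mul_neg, Matrix.mul_neg, Matrix.neg_mul, neg_neg,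
    two_mul]

/-- The trace formula for a transversal. -/
theorem trace_formula (hA : P_avg) {c : G} (hc : c * c = 1) {x₀ : X}
    {S : Submodule ℚ (X → ℚ)} (hS : S ∈ MinInv G (fun x : X => c • x)) {g : ℕ}
    (hg : Fintype.card X = 2 * g) {T : Finset X} (hT : ∀ x, x ∈ T ↔ c • x ∉ T) {γ : X → G}
    (hγ : ∀ x, γ x • x₀ = x) (w : X → ℚ) :
    (finrank ℚ S : ℝ) * ∑ x ∈ T, phi (mt (proj S) - mt (proj (imPart γ w x₀ S)))
        (kerPart γ w x₀ S) (γ x)⁻¹ =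
      g * (finrank ℚ (kerPart γ w x₀ S) *
        (finrank ℚ S - finrank ℚ (imPart γ w x₀ S) : ℝ)) := by
  classical
  obtain ⟨h0, hi, ho, hmin⟩ := id hS
  set K := kerPart γ w x₀ S with hK
  set R := imPart γ w x₀ S with hR
  have hSS : DStable G S S := fun A hA s _ => hA.1 s
  have h1 := hA G X c S S K hS le_rfl hSS (kerPart_le γ w x₀ S)
  have h2 := hA G X c S R K hS (imPart_le hi γ w x₀) (imPart_stable hi γ w x₀)
    (kerPart_le γ w x₀ S)
  have h3 := sum_phi (G := G) (mt (proj S) - mt (proj R)) K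
  rw [sub_mul, ← mt_comp, ← mt_comp, Matrix.trace_sub, trace_mt, trace_mt] at h3
  have h4 := sum_phi_transversal hc hi ho (K := K) inf_le_left hT hγ
    (mt (proj S) - mt (proj R))
  rw [h3] at h4
  have h5 := card_fiber (G := G) x₀ x₀
  rw [hg] at h5
  have h6 : 0 < stabCard G x₀ := by
    rw [stabCard, card_pos]
    exact ⟨1, by simp⟩
  have h7 : ((Nat.card G : ℕ) : ℝ) = stabCard G x₀ * (2 * g) := by
    rw [Nat.card_eq_fintype_card, ← h5]
    push_cast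
    rfl
  have h1' : (finrank ℚ S : ℝ) * ((LinearMap.trace ℚ (X → ℚ) (proj S ∘ₗ avg G K) : ℚ) : ℝ) =
      finrank ℚ S * (Nat.card G * finrank ℚ K) := by exact_mod_cast h1
  have h2' : (finrank ℚ S : ℝ) * ((LinearMap.trace ℚ (X → ℚ) (proj R ∘ₗ avg G K) : ℚ) : ℝ) =
      finrank ℚ R * (Nat.card G * finrank ℚ K) := by exact_mod_cast h2
  rw [h7] at h1' h2'
  have h8 : (0 : ℝ) < stabCard G x₀ * 2 := by positivity
  refine mul_left_cancel₀ h8.ne' ?_
  linear_combination h1' - h2' - (finrank ℚ S : ℝ) * h4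

/-- The lower bound for the traces. -/
theorem lower_bound (hA : P_avg) {c : G} (hc : c * c = 1) {x₀ : X}
    {S : Submodule ℚ (X → ℚ)} (hS : S ∈ MinInv G (fun x : X => c • x)) {g : ℕ}
    (hg : Fintype.card X = 2 * g) {T : Finset X} (hT : ∀ x, x ∈ T ↔ c • x ∉ T) {γ : X → G}
    (hγ : ∀ x, γ x • x₀ = x) (w : X → ℚ) (hne : kerPart γ w x₀ S ≠ ⊥) :
    (g : ℝ) * (edim G S : ℝ) ^ 2 ≤
      (finrank ℚ S : ℝ) * ∑ x ∈ T, phi (mt (proj S) - mt (proj (imPart γ w x₀ S)))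
        (kerPart γ w x₀ S) (γ x)⁻¹ := by
  obtain ⟨h0, hi, ho, hmin⟩ := id hS
  rw [trace_formula hA hc hS hg hT hγ w]
  have h1 := edim_le_finrank hS (kerPart_le γ w x₀ S) (kerPart_stable hi γ w x₀) hne
  have h2 := finrank_kerPart_add γ w x₀ S
  have h3 : finrank ℚ (fixedPart G x₀ S) ≤ finrank ℚ S :=
    Submodule.finrank_mono (fixedPart_le x₀ S)
  have h4 : (edim G S : ℝ) ≤ finrank ℚ (kerPart γ w x₀ S) := by exact_mod_cast h1
  have h5 : (finrank ℚ (kerPart γ w x₀ S) : ℝ) + finrank ℚ (imPart γ w x₀ S) ≤ finrank ℚ S := by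
    rw [← h2] at h3
    exact_mod_cast h3
  have h6 : (0 : ℝ) ≤ edim G S := Nat.cast_nonneg _
  rw [sq]
  refine mul_le_mul_of_nonneg_left ?_ (Nat.cast_nonneg _)
  exact mul_le_mul h4 (by linarith) h6 (by linarith)

end Pool.Agent.Y903.KN
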