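import Mathlib
import Pool.Agent.Y903.KN.Phi

/-!
# The kernel inequality
-/

set_option linter.unusedSectionVars false
set_option linter.unusedVariables false

namespace Pool.Agent.Y903.KN

open Matrix Finset Module Pool.Agent.TH170.MF Pool.Agent.TH170.QC Pool.Agent.TH170.QE
open Pool.Agent.TH170.FW Pool.Agent.TH170.GC Pool.Agent.Y1.KN

variable {G X : Type} [Group G] [MulAction G X] [Fintype X] [DecidableEq X]

/-- The odd function with the signs `ε` on the transversal. -/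
def fe (c : G) (T : Finset X) (ε : T → Bool) (x : X) : ℤ :=
  if h : x ∈ T then (if ε ⟨x, h⟩ then 1 else -1)
  else (if h' : c • x ∈ T then (if ε ⟨c • x, h'⟩ then -1 else 1) else 0)

theorem fe_mem {c : G} {T : Finset X} (ε : T → Bool) (x : T) :
    fe c T ε x = if ε x then 1 else -1 := by
  rw [fe, dif_pos x.2]

theorem fe_neg {c : G} {T : Finset X} (hcx : ∀ x : X, c • c • x = x)
    (hT : ∀ x, x ∈ T ↔ c • x ∉ T) (ε : T → Bool) {x : X} (hx : x ∈ T) :
    fe c T ε (c • x) = - fe c T ε x := by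
  have h1 : c • x ∉ T := (hT x).1 hx
  have h2 : c • c • x ∈ T := by rw [hcx]; exact hx
  rw [fe, dif_neg h1, dif_pos h2, fe, dif_pos hx]
  have h3 : (⟨c • c • x, h2⟩ : T) = ⟨x, hx⟩ := Subtype.ext (hcx x)
  rw [h3]
  split_ifs <;> simp

theorem fe_of_oddSign {c : G} {T : Finset X} (hcx : ∀ x : X, c • c • x = x)
    (hT : ∀ x, x ∈ T ↔ c • x ∉ T) {f : X → ℤ} (hf : f ∈ oddSigns X (fun x => c • x)) :
    fe c T (fun x => decide (f x = 1)) = f := by
  have h0 : ∀ x ∈ T, fe c T (fun x => decide (f x = 1)) x = f x := by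
    intro x hx
    have h1 := fe_mem (c := c) (fun x : T => decide (f x = 1)) ⟨x, hx⟩
    rw [h1]
    rcases hf.1 x with h | h
    · simp [h]
    · simp [h]
  funext x
  by_cases hx : x ∈ T
  · exact h0 x hx
  · have hx' : c • x ∈ T := by
      rw [hT, hcx]
      exact hx
    have h2 := fe_neg hcx hT (fun x : T => decide (f x = 1)) hx'
    rw [hcx, h0 _ hx'] at h2
    rw [h2]
    have h3 := hf.2 x
    beta_reduce at h3
    rw [h3, neg_neg]

/-- The matrices. -/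
noncomputable def am (M : X → ℤ) (n : ℕ) (γ : X → G) (K₀ : Submodule ℚ (X → ℚ)) (x : X) :
    Matrix X X ℝ := ((M x : ℝ) / n) • (mt (tr (γ x)⁻¹) * mt (proj K₀))

theorem mop_proj {c : G} (hc : c * c = 1) {x₀ : X} {S : Submodule ℚ (X → ℚ)}
    (hS : Invariant G S) (ho : AllOdd (fun x : X => c • x) S) {T : Finset X}
    (hT : ∀ x, x ∈ T ↔ c • x ∉ T) {γ : X → G} (hγ : ∀ x, γ x • x₀ = x) {w : X → ℚ}
    (hw : ∀ x ∈ T, w (c • x) = - w x) :
    mop γ w ∘ₗ proj (fixedPart G x₀ S) =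
      ∑ x ∈ T, (2 * w x) • (tr (γ x)⁻¹ ∘ₗ proj (fixedPart G x₀ S)) := by
  have hcx : ∀ x : X, c • c • x = x := fun x => by rw [← mul_smul, hc, one_smul]
  refine LinearMap.ext fun u => ?_
  rw [LinearMap.comp_apply, mop_apply, sum_transversal (c := fun x : X => c • x) hcx hT,
    LinearMap.sum_apply]
  refine sum_congr rfl fun x hx => ?_
  have hv := proj_mem (fixedPart G x₀ S) u
  have h1 : tr (γ (c • x))⁻¹ (proj (fixedPart G x₀ S) u) =
      - tr (γ x)⁻¹ (proj (fixedPart G x₀ S) u) := by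
    refine tr_congr_neg hc hS ho hv ?_
    rw [inv_inv, inv_inv, hγ, hγ]
  rw [h1, hw x hx, LinearMap.smul_apply, LinearMap.comp_apply, smul_neg, neg_smul, neg_neg,
    two_mul, add_smul]

theorem sMat_eq {c : G} (hc : c * c = 1) {x₀ : X} {S : Submodule ℚ (X → ℚ)}
    (hS : Invariant G S) (ho : AllOdd (fun x : X => c • x) S) {T : Finset X}
    (hT : ∀ x, x ∈ T ↔ c • x ∉ T) {γ : X → G} (hγ : ∀ x, γ x • x₀ = x) {M : X → ℤ}
    (hM : ∀ x, M (c • x) = M x) {n : ℕ} (ε : T → Bool) :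
    sMat (fun x : T => am M n γ (fixedPart G x₀ S) x) ε =
      ((2 * n : ℝ)⁻¹) • mt (mop γ (fun x => ((fe c T ε x * M x : ℤ) : ℚ)) ∘ₗ
        proj (fixedPart G x₀ S)) := by
  have hcx : ∀ x : X, c • c • x = x := fun x => by rw [← mul_smul, hc, one_smul]
  rw [mop_proj hc hS ho hT hγ (w := fun x => ((fe c T ε x * M x : ℤ) : ℚ)) ?_, mt_sum, sMat,
    smul_sum, ← Finset.sum_coe_sort T]
  · refine sum_congr rfl fun x _ => ?_
    rw [am, mt_smul, mt_comp, smul_smul, smul_smul, fe_mem]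
    congr 1
    split_ifs
    · push_cast
      rw [mul_inv]
      ring
    · push_cast
      rw [mul_inv]
      ring
  · intro x hx
    rw [fe_neg hcx hT ε hx, hM]
    push_cast
    ring

theorem am_mul {M : X → ℤ} {n : ℕ} {γ : X → G} {K K₀ : Submodule ℚ (X → ℚ)} (hK : K ≤ K₀)
    (x : X) : am M n γ K₀ x * mt (proj K) = ((M x : ℝ) / n) • lam K (γ x)⁻¹ := by
  rw [am, Matrix.smul_mul, Matrix.mul_assoc, mt_proj_comp hK, lam, mt_comp]

theorem trace_am {M : X → ℤ} {n : ℕ} {γ : X → G} {K K₀ : Submodule ℚ (X → ℚ)} (hK : K ≤ K₀)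
    (Q : Matrix X X ℝ) (x : X) :
    (Q * am M n γ K₀ x * mt (proj K) * (am M n γ K₀ x)ᵀ).trace =
      ((M x : ℝ) / n) ^ 2 * phi Q K (γ x)⁻¹ := by
  have h1 : Q * am M n γ K₀ x * mt (proj K) * (am M n γ K₀ x)ᵀ =
      Q * (am M n γ K₀ x * mt (proj K)) * (am M n γ K₀ x * mt (proj K))ᵀ := by
    rw [Matrix.transpose_mul, mt_proj_transpose]
    have h2 : am M n γ K₀ x * mt (proj K) =
        am M n γ K₀ x * mt (proj K) * mt (proj K) := by rw [Matrix.mul_assoc, mt_proj_mul]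
    conv_lhs => rw [Matrix.mul_assoc Q, h2]
    simp only [Matrix.mul_assoc]
  rw [h1, am_mul hK, Matrix.transpose_smul]
  simp only [Matrix.mul_smul, Matrix.smul_mul, smul_smul]
  rw [Matrix.trace_smul, smul_eq_mul, phi, sq]

theorem contr_am {M : X → ℤ} {n : ℕ} (hM : ∀ x, 1 ≤ |M x| ∧ |M x| ≤ n) (γ : X → G)
    (K₀ : Submodule ℚ (X → ℚ)) (x : X) : Contr (am M n γ K₀ x) := by
  refine contr_smul (contr_mul (contr_tr _) (Pool.Agent.Y655.KN.proj_le (oproj K₀))) ?_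
  obtain ⟨h1, h2⟩ := hM x
  have h3 : (|(M x : ℝ)|) ≤ n := by exact_mod_cast h2
  have h4 : (1 : ℝ) ≤ |(M x : ℝ)| := by exact_mod_cast h1
  have hn : (0 : ℝ) < n := by linarith
  rw [div_pow, div_le_one (by positivity), ← sq_abs]
  exact pow_le_pow_left₀ (by positivity) h3 2

variable [Fintype G] [MulAction.IsPretransitive G X]

/-- **The kernel inequality.** -/
theorem key (hA : P_avg) : P_key := by
  intro G X _ _ _ _ _ _ M n hM c hMc hc hfree hcen g hg S hS x₀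
  classical
  obtain ⟨h0, hi, ho, hmin⟩ := id hS
  choose γ hγ using fun x => MulAction.exists_smul_eq G x₀ x
  have hcx : ∀ x : X, c • c • x = x := fun x => by rw [← mul_smul, hc, one_smul]
  obtain ⟨T, hT⟩ := exists_transversal (c := fun x : X => c • x) hcx hfree
  have hTg : T.card = g := by
    have := card_transversal (c := fun x : X => c • x) hcx hT
    omega
  have hg0 : 0 < g := by
    have : 0 < Fintype.card X := Fintype.card_pos_iff.2 ⟨x₀⟩
    omega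
  have hg0' : (0 : ℝ) < g := Nat.cast_pos.2 hg0
  have hn0 : 0 < n := by
    obtain ⟨h1, h2⟩ := hM x₀
    have h3 : (1 : ℤ) ≤ n := h1.trans h2
    exact_mod_cast h3
  have hn0' : (0 : ℝ) < n := Nat.cast_pos.2 hn0
  have hd0 : (0 : ℝ) < finrank ℚ S := by
    have : 0 < finrank ℚ S := by
      rw [Module.finrank_pos_iff]
      exact Submodule.nontrivial_iff_ne_bot.2 h0
    exact_mod_cast this
  obtain ⟨w, hw⟩ : ∃ w : (T → Bool) → X → ℚ,
      w = fun ε x => ((fe c T ε x * M x : ℤ) : ℚ) := ⟨_, rfl⟩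
  set K₀ := fixedPart G x₀ S with hK₀
  obtain ⟨P₁, hP₁⟩ : ∃ P₁ : (T → Bool) → Matrix X X ℝ,
    P₁ = fun ε => mt (proj S) - mt (proj (imPart γ (w ε) x₀ S)) := ⟨_, rfl⟩
  obtain ⟨P₂, hP₂⟩ : ∃ P₂ : (T → Bool) → Matrix X X ℝ,
    P₂ = fun ε => mt (proj (kerPart γ (w ε) x₀ S)) := ⟨_, rfl⟩
  have hs : ∀ ε, sMat (fun x : T => am M n γ K₀ x) ε =
      ((2 * n : ℝ)⁻¹) • mt (mop γ (w ε) ∘ₗ proj K₀) := by
    intro ε
    rw [hw]
    exact sMat_eq hc hi ho hT hγ hMc ε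
  have hO₁ : ∀ ε, OProj (P₁ ε) := by
    intro ε
    rw [hP₁]
    exact oproj_sub (imPart_le hi γ (w ε) x₀)
  have hmain := Pool.Agent.Y655.KN.signs X T (fun x : T => am M n γ K₀ x) (mt (proj K₀)) P₁ P₂
    (fun x => contr_am hM γ K₀ x) (oproj K₀)
    (fun x => by rw [am, Matrix.smul_mul, Matrix.mul_assoc, mt_proj_mul])
    hO₁
    (fun ε => by rw [hP₂]; exact oproj _)
    (fun ε => by
      rw [hs ε, Matrix.mul_smul, hP₁, sub_mul, ← mt_comp, ← mt_comp, ← mt_sub]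
      have h1 : proj S ∘ₗ mop γ (w ε) ∘ₗ proj K₀ -
          proj (imPart γ (w ε) x₀ S) ∘ₗ mop γ (w ε) ∘ₗ proj K₀ = 0 := by
        refine LinearMap.ext fun u => ?_
        have h2 : mop γ (w ε) (proj K₀ u) ∈ imPart γ (w ε) x₀ S := ⟨_, proj_mem K₀ u, rfl⟩
        change proj S (mop γ (w ε) (proj K₀ u)) -
          proj (imPart γ (w ε) x₀ S) (mop γ (w ε) (proj K₀ u)) = 0
        rw [proj_of_mem _ h2, proj_of_mem _ (imPart_le hi γ (w ε) x₀ h2), sub_self]
      rw [h1, mt_zero, smul_zero])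
    (fun ε => by
      rw [hs ε, Matrix.smul_mul, hP₂, ← mt_comp]
      have h1 : (mop γ (w ε) ∘ₗ proj K₀) ∘ₗ proj (kerPart γ (w ε) x₀ S) = 0 := by
        refine LinearMap.ext fun u => ?_
        have h2 : proj (kerPart γ (w ε) x₀ S) u ∈ kerPart γ (w ε) x₀ S := proj_mem _ u
        change mop γ (w ε) (proj K₀ (proj (kerPart γ (w ε) x₀ S) u)) = 0
        rw [proj_of_mem K₀ h2.1]
        exact h2.2
      rw [h1, mt_zero, smul_zero])
  rw [Fintype.card_coe, hTg, trace_mt, trace_proj] at hmain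
  -- the terms
  have hterm : ∀ ε, ∑ x : T, (P₁ ε * am M n γ K₀ x * P₂ ε * (am M n γ K₀ x)ᵀ).trace =
      ∑ x ∈ T, ((M x : ℝ) / n) ^ 2 * phi (P₁ ε) (kerPart γ (w ε) x₀ S) (γ x)⁻¹ := by
    intro ε
    rw [← Finset.sum_coe_sort T]
    refine sum_congr rfl fun x _ => ?_
    rw [hP₂]
    exact trace_am inf_le_left _ _
  have hnn : ∀ ε, 0 ≤ ∑ x : T, (P₁ ε * am M n γ K₀ x * P₂ ε * (am M n γ K₀ x)ᵀ).trace := by
    intro ε
    rw [hterm ε]
    exact sum_nonneg fun x _ => mul_nonneg (sq_nonneg _) (phi_nonneg (hO₁ ε) _ _)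
  have hlow : ∀ ε, fe c T ε ∈ orthClassW M c (killers G (S : Set (X → ℚ))) →
      (g : ℝ) * (edim G S : ℝ) ^ 2 / ((n : ℝ) ^ 2 * finrank ℚ S) ≤
        ∑ x : T, (P₁ ε * am M n γ K₀ x * P₂ ε * (am M n γ K₀ x)ᵀ).trace := by
    intro ε hε
    rw [hterm ε]
    have h1 : kerPart γ (w ε) x₀ S ≠ ⊥ := by
      rw [hw]
      exact kerPart_ne_bot hS x₀ hγ hε
    have h2 := lower_bound hA hc hS hg hT hγ (w ε) h1
    have h3 : (1 / (n : ℝ) ^ 2) * ∑ x ∈ T, phi (P₁ ε) (kerPart γ (w ε) x₀ S) (γ x)⁻¹ ≤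
        ∑ x ∈ T, ((M x : ℝ) / n) ^ 2 * phi (P₁ ε) (kerPart γ (w ε) x₀ S) (γ x)⁻¹ := by
      rw [mul_sum]
      refine sum_le_sum fun x _ => ?_
      refine mul_le_mul_of_nonneg_right ?_ (phi_nonneg (hO₁ ε) _ _)
      rw [div_pow]
      refine div_le_div_of_nonneg_right ?_ (by positivity)
      have h4 : (1 : ℝ) ≤ |(M x : ℝ)| := by exact_mod_cast (hM x).1
      rw [← sq_abs]
      nlinarith
    refine le_trans ?_ h3
    rw [hP₁]
    rw [div_le_iff₀ (by positivity)]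
    have h4 : (1 / (n : ℝ) ^ 2) * (∑ x ∈ T, phi (mt (proj S) - mt (proj (imPart γ (w ε) x₀ S)))
        (kerPart γ (w ε) x₀ S) (γ x)⁻¹) * ((n : ℝ) ^ 2 * finrank ℚ S) =
        finrank ℚ S * (∑ x ∈ T, phi (mt (proj S) - mt (proj (imPart γ (w ε) x₀ S)))
        (kerPart γ (w ε) x₀ S) (γ x)⁻¹) := by
      field_simp
    rw [h4]
    exact h2
  -- the count
  set C : Finset (T → Bool) := univ.filter
    (fun ε => fe c T ε ∈ orthClassW M c (killers G (S : Set (X → ℚ)))) with hC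
  have hcount : (orthClassW M c (killers G (S : Set (X → ℚ)))).ncard ≤ C.card := by
    have h1 : orthClassW M c (killers G (S : Set (X → ℚ))) ⊆
        ((C.image (fe c T) : Finset (X → ℤ)) : Set (X → ℤ)) := by
      intro f hf
      rw [coe_image]
      have h2 := fe_of_oddSign hcx hT hf.1
      refine ⟨fun x => decide (f x = 1), ?_, h2⟩
      rw [hC, coe_filter]
      refine ⟨mem_univ _, ?_⟩
      rw [h2]
      exact hf
    refine (Set.ncard_le_ncard h1 (Finset.finite_toSet _)).trans ?_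
    rw [Set.ncard_coe_finset]
    exact card_image_le
  have hfin : (C.card : ℝ) * ((g : ℝ) * (edim G S : ℝ) ^ 2 / ((n : ℝ) ^ 2 * finrank ℚ S)) ≤
      2 ^ g * (finrank ℚ K₀ * √g) := by
    have h1 : (C.card : ℝ) * ((g : ℝ) * (edim G S : ℝ) ^ 2 / ((n : ℝ) ^ 2 * finrank ℚ S)) ≤
        ∑ ε ∈ C, ∑ x : T, (P₁ ε * am M n γ K₀ x * P₂ ε * (am M n γ K₀ x)ᵀ).trace := by
      rw [← nsmul_eq_mul]
      exact card_nsmul_le_sum _ _ _ fun ε hε => hlow ε (mem_filter.1 hε).2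
    refine h1.trans ((sum_le_univ_sum_of_nonneg hnn).trans (hmain.trans (le_of_eq ?_)))
    push_cast
    rfl
  have hsq : √(g : ℝ) * √g = g := Real.mul_self_sqrt hg0'.le
  have hsq0 : 0 < √(g : ℝ) := Real.sqrt_pos.2 hg0'
  have h1 : ((orthClassW M c (killers G (S : Set (X → ℚ)))).ncard : ℝ) *
      ((g : ℝ) * (edim G S : ℝ) ^ 2 / ((n : ℝ) ^ 2 * finrank ℚ S)) ≤
      2 ^ g * (finrank ℚ K₀ * √g) := by
    refine le_trans ?_ hfin
    refine mul_le_mul_of_nonneg_right (by exact_mod_cast hcount) (by positivity)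
  rw [← mul_div_assoc, div_le_iff₀ (by positivity)] at h1
  refine le_of_mul_le_mul_right ?_ hsq0
  calc _ = ((orthClassW M c (killers G (S : Set (X → ℚ)))).ncard : ℝ) *
      ((√(g : ℝ) * √g) * (edim G S : ℝ) ^ 2) := by ring
    _ = ((orthClassW M c (killers G (S : Set (X → ℚ)))).ncard : ℝ) *
      ((g : ℝ) * (edim G S : ℝ) ^ 2) := by rw [hsq]
    _ ≤ _ := h1
    _ = _ := by ring

end Pool.Agent.Y903.KN
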