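import Mathlib
import Pool.Agent.Y1.KN.Stm8

/-!
# Quadratic characters of a group and its subgroups
-/

set_option linter.unusedSectionVars false
set_option linter.unusedVariables false

namespace Pool.Agent.Y903.KN.Quad

open Subgroup
open Pool.Agent.Y1.KN (P_uniq P_quad)

instance finHom (G : Type) [Group G] [Finite G] : Finite (G →* ℤˣ) := DFunLike.finite _

/-- The homs trivial on a subgroup are at most as many as the cosets. -/
theorem card_trivial_le (G : Type) [Group G] [Finite G] (M : Subgroup G) :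
    Nat.card {χ : G →* ℤˣ // M ≤ χ.ker} ≤ M.index := by
  classical
  have : Fintype G := Fintype.ofFinite G
  have : Fintype (G ⧸ M) := Fintype.ofFinite _
  have : Fintype {χ : G →* ℤˣ // M ≤ χ.ker} := Fintype.ofFinite _
  let ι : ℤˣ →* ℚ := (Int.castRingHom ℚ : ℤ →* ℚ).comp (Units.coeHom ℤ)
  have hι : Function.Injective ι := by
    intro a b hab
    have h1 : ((a : ℤ) : ℚ) = ((b : ℤ) : ℚ) := hab
    exact Units.ext (by exact_mod_cast h1)
  -- the function on the cosets
  let F : {χ : G →* ℤˣ // M ≤ χ.ker} → (G ⧸ M → ℚ) := fun χ q => ι (χ.1 q.out)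
  have hF : ∀ χ : {χ : G →* ℤˣ // M ≤ χ.ker}, ∀ g : G, F χ (QuotientGroup.mk g) = ι (χ.1 g) := by
    intro χ g
    have h1 : (QuotientGroup.mk (QuotientGroup.mk (s := M) g).out : G ⧸ M) = QuotientGroup.mk g :=
      Quotient.out_eq' _
    have h2 := QuotientGroup.eq.mp h1
    have h3 : χ.1 (((QuotientGroup.mk (s := M) g).out)⁻¹ * g) = 1 := χ.2 h2
    rw [map_mul, map_inv] at h3
    have h4 : χ.1 ((QuotientGroup.mk (s := M) g).out) = χ.1 g := by
      exact (inv_mul_eq_one.mp h3)
    show ι (χ.1 ((QuotientGroup.mk (s := M) g).out)) = ι (χ.1 g)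
    rw [h4]
  let Lm : (G ⧸ M → ℚ) →ₗ[ℚ] (G → ℚ) := LinearMap.funLeft ℚ ℚ (fun g : G => (QuotientGroup.mk g : G ⧸ M))
  have hli : LinearIndependent ℚ (fun χ : {χ : G →* ℤˣ // M ≤ χ.ker} => Lm (F χ)) := by
    have h0 := linearIndependent_monoidHom G ℚ
    have h1 : Function.Injective (fun χ : {χ : G →* ℤˣ // M ≤ χ.ker} => ι.comp χ.1) := by
      intro a b hab
      apply Subtype.ext
      ext g
      have := DFunLike.congr_fun hab g
      exact congrArg Units.val (hι this)
    have h2 := h0.comp _ h1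
    have h3 : (fun χ : {χ : G →* ℤˣ // M ≤ χ.ker} => Lm (F χ)) =
        (fun f : G →* ℚ => (f : G → ℚ)) ∘
          fun χ : {χ : G →* ℤˣ // M ≤ χ.ker} => ι.comp χ.1 := by
      funext χ
      funext g
      exact hF χ g
    rw [h3]
    exact h2
  have hli2 : LinearIndependent ℚ F := LinearIndependent.of_comp Lm hli
  have h3 := hli2.fintype_card_le_finrank
  rw [Module.finrank_fintype_fun_eq_card] at h3
  rw [Nat.card_eq_fintype_card, Subgroup.index, Nat.card_eq_fintype_card]
  exact h3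

/-- Counting by a homomorphism. -/
theorem card_le_ker_mul (G₁ G₂ : Type) [Group G₁] [Group G₂] [Finite G₁] (r : G₁ →* G₂)
    (X : Subgroup G₁) : Nat.card X ≤ Nat.card r.ker * Nat.card (X.map r) := by
  classical
  let r' : X →* G₂ := r.comp X.subtype
  have h1 : Nat.card X = Nat.card r'.ker * Nat.card r'.range := by
    rw [← Subgroup.index_ker, Subgroup.card_mul_index]
  have h2 : r'.range = X.map r := by
    ext y
    constructor
    · rintro ⟨x, rfl⟩
      exact ⟨x.1, x.2, rfl⟩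
    · rintro ⟨x, hx, rfl⟩
      exact ⟨⟨x, hx⟩, rfl⟩
  have h3 : Nat.card r'.ker ≤ Nat.card r.ker := by
    refine Nat.card_le_card_of_injective (fun x : r'.ker => (⟨x.1.1, x.2⟩ : r.ker)) ?_
    intro a b hab
    apply Subtype.ext
    apply Subtype.ext
    exact congrArg (fun y : r.ker => y.1) hab
  rw [h1, h2]
  exact Nat.mul_le_mul_right _ h3

theorem units_cases (a : ℤˣ) : a = 1 ∨ a = -1 := Int.units_eq_one_or a

/-- A hom to `ℤˣ` is determined by its kernel. -/
theorem eq_of_ker_eq (G : Type) [Group G] (φ φ' : G →* ℤˣ) (h : φ.ker = φ'.ker) : φ = φ' := by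
  ext g
  have h1 : φ g = 1 ↔ φ' g = 1 := by
    rw [← MonoidHom.mem_ker, ← MonoidHom.mem_ker, h]
  have h2 : φ g = φ' g := by
    rcases units_cases (φ g) with h3 | h3
    · rw [h3, h1.mp h3]
    · rcases units_cases (φ' g) with h4 | h4
      · exfalso
        have h5 := h1.mpr h4
        rw [h3] at h5
        exact absurd h5 (by decide)
      · rw [h3, h4]
  rw [h2]

/-- The restriction of homs. -/
def res (G : Type) [Group G] (M : Subgroup G) : (G →* ℤˣ) →* (M →* ℤˣ) where
  toFun ψ := ψ.comp M.subtype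
  map_one' := rfl
  map_mul' _ _ := rfl

theorem mem_res_ker (G : Type) [Group G] (M : Subgroup G) (ψ : G →* ℤˣ) :
    ψ ∈ (res G M).ker ↔ M ≤ ψ.ker := by
  rw [MonoidHom.mem_ker]
  constructor
  · intro h x hx
    have := DFunLike.congr_fun h ⟨x, hx⟩
    exact this
  · intro h
    ext x
    have : ψ x.1 = 1 := h x.2
    exact congrArg Units.val this

theorem card_res_ker (G : Type) [Group G] [Finite G] (M : Subgroup G) :
    Nat.card (res G M).ker ≤ M.index := by
  refine le_trans ?_ (card_trivial_le G M)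
  refine Nat.card_le_card_of_injective
    (fun x : (res G M).ker => (⟨x.1, (mem_res_ker G M x.1).mp x.2⟩ : {χ : G →* ℤˣ // M ≤ χ.ker})) ?_
  intro a b hab
  apply Subtype.ext
  exact congrArg (fun y : {χ : G →* ℤˣ // M ≤ χ.ker} => y.1) hab

/-- The number of the conjugates. -/
theorem index_normalizer_le (P : Type) [Group P] [Finite P] (s c : P) (hs : ∀ x, s * x = x * s)
    (hc : ∀ x, c * x = x * c) (A : Subgroup P) (hsA : s ∈ A) (hcA : c ∉ A) :
    (normalizer (A : Set P)).index ≤ {A : Subgroup P | s ∈ A ∧ c ∉ A}.ncard := by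
  classical
  rw [← Nat.card_coe_set_eq, Subgroup.index]
  refine Nat.card_le_card_of_injective (fun q : P ⧸ normalizer (A : Set P) =>
    (⟨A.map (MulAut.conj q.out).toMonoidHom, ?_, ?_⟩ : {A : Subgroup P | s ∈ A ∧ c ∉ A})) ?_
  · refine ⟨s, hsA, ?_⟩
    show q.out * s * (q.out)⁻¹ = s
    rw [← hs, mul_assoc, mul_inv_cancel, mul_one]
  · rintro ⟨y, hy, hyc⟩
    have h1 : q.out * y * (q.out)⁻¹ = c := hyc
    have h2 : y = c := by
      have h3 : q.out * y = c * q.out := by rw [← h1]; group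
      rw [hc] at h3
      exact mul_left_cancel h3
    exact hcA (h2 ▸ hy)
  · intro q q' hqq
    have h1 : A.map (MulAut.conj q.out).toMonoidHom = A.map (MulAut.conj q'.out).toMonoidHom :=
      congrArg (fun y : {A : Subgroup P | s ∈ A ∧ c ∉ A} => y.1) hqq
    have h2 : q.out⁻¹ * q'.out ∈ normalizer (A : Set P) := by
      rw [Subgroup.mem_normalizer_iff_map_conj_eq]
      have h3 : A.map (MulAut.conj (q.out⁻¹ * q'.out)).toMonoidHom =
          (A.map (MulAut.conj q'.out).toMonoidHom).map (MulAut.conj (q.out⁻¹)).toMonoidHom := by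
        rw [Subgroup.map_map]
        congr 1
        rw [map_mul]
        rfl
      have h4 : A = (A.map (MulAut.conj q.out).toMonoidHom).map
          (MulAut.conj (q.out⁻¹)).toMonoidHom := by
        rw [Subgroup.map_map]
        ext x
        constructor
        · intro hx
          refine ⟨x, hx, ?_⟩
          show q.out⁻¹ * (q.out * x * q.out⁻¹) * (q.out⁻¹)⁻¹ = x
          group
        · rintro ⟨y, hy, rfl⟩
          have : q.out⁻¹ * (q.out * y * q.out⁻¹) * (q.out⁻¹)⁻¹ = y := by group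
          have h5 : ((MulAut.conj q.out⁻¹).toMonoidHom.comp (MulAut.conj q.out).toMonoidHom) y = y :=
            this
          rw [h5]
          exact hy
      show A.map (MulAut.conj (q.out⁻¹ * q'.out)).toMonoidHom = A
      rw [h3, ← h1, ← h4]
    have h3 : (QuotientGroup.mk q.out : P ⧸ normalizer (A : Set P)) = QuotientGroup.mk q'.out :=
      QuotientGroup.eq.mpr h2
    have h4 : (QuotientGroup.mk q.out : P ⧸ normalizer (A : Set P)) = q := Quotient.out_eq' q
    have h5 : (QuotientGroup.mk q'.out : P ⧸ normalizer (A : Set P)) = q' := Quotient.out_eq' q'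
    rw [h4, h5] at h3
    exact h3

/-- The case of a 2-group. -/
theorem quad_two (hU : P_uniq) (P : Type) [Group P] [Finite P] (hP : IsPGroup 2 P) (s c : P)
    (hs : ∀ x, s * x = x * s) (hc : ∀ x, c * x = x * c)
    (hs2 : s * s = 1) (hc2 : c * c = 1) (hc1 : c ≠ 1) (hcs : c ≠ s) (X : Subgroup (P →* ℤˣ))
    (hX : ∀ ψ ∈ X, ψ s = 1) :
    Nat.card X ≤ 4 * {A : Subgroup P | s ∈ A ∧ c ∉ A}.ncard ^ 2 := by
  classical
  set 𝒜 : Set (Subgroup P) := {A : Subgroup P | s ∈ A ∧ c ∉ A} with h𝒜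
  have hfin : 𝒜.Finite := Set.toFinite _
  have hne : 𝒜.Nonempty := by
    refine ⟨zpowers s, mem_zpowers s, ?_⟩
    intro h
    obtain ⟨k, hk⟩ := mem_zpowers_iff.mp h
    rcases Int.even_or_odd k with ⟨m, hm⟩ | ⟨m, hm⟩
    · apply hc1
      rw [← hk, hm, zpow_add, ← (Commute.refl s).mul_zpow, hs2, one_zpow]
    · apply hcs
      rw [← hk, hm, zpow_add, zpow_mul, zpow_one]
      rw [show s ^ (2:ℤ) = 1 by rw [zpow_ofNat, pow_two, hs2], one_zpow, one_mul]
  obtain ⟨A, hA⟩ := hfin.exists_maximal hne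
  have hsA : s ∈ A := hA.1.1
  have hcA : c ∉ A := hA.1.2
  set M : Subgroup P := normalizer (A : Set P) with hM
  have hAM : A ≤ M := A.le_normalizer
  have h1 := index_normalizer_le P s c hs hc A hsA hcA
  -- the second fibre
  let A' : Subgroup M := A.subgroupOf M
  have hnorm : A'.Normal := normal_in_normalizer
  have hcM : c ∈ M := by
    rw [hM, Subgroup.mem_normalizer_iff]
    intro h
    rw [hc h, mul_assoc, mul_inv_cancel, mul_one]
  have h2 : Nat.card (res M A').ker ≤ 4 := by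
    have : Fintype (M ⧸ A') := Fintype.ofFinite _
    obtain ⟨a, ha⟩ := IsPGroup.iff_card.mp ((hP.to_subgroup M).to_quotient A')
    have hmem : ∀ x : M, (QuotientGroup.mk x : M ⧸ A') = 1 ↔ x.1 ∈ A := by
      intro x
      rw [QuotientGroup.eq_one_iff]
      exact Iff.rfl
    have h3 := hU (M ⧸ A') (QuotientGroup.mk ⟨c, hcM⟩) a ha
      (fun h => hcA ((hmem _).mp h)) (by
        rw [← QuotientGroup.mk_mul]
        rw [hmem]
        show c * c ∈ A
        rw [hc2]
        exact A.one_mem) (by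
        intro x hx1 hx2
        obtain ⟨m, rfl⟩ := QuotientGroup.mk_surjective x
        by_contra hne'
        let B : Subgroup P := ((zpowers (QuotientGroup.mk m : M ⧸ A')).comap
          (QuotientGroup.mk' A')).map M.subtype
        have hAB : A ≤ B := by
          intro y hy
          refine ⟨⟨y, hAM hy⟩, ?_, rfl⟩
          show QuotientGroup.mk' A' ⟨y, hAM hy⟩ ∈ zpowers (QuotientGroup.mk m : M ⧸ A')
          have : QuotientGroup.mk' A' ⟨y, hAM hy⟩ = 1 := (hmem ⟨y, hAM hy⟩).mpr hy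
          rw [this]
          exact Subgroup.one_mem _
        have hmB : m.1 ∈ B := ⟨m, mem_zpowers _, rfl⟩
        have hmA : m.1 ∉ A := fun h => hx1 ((hmem m).mpr h)
        have hcB : c ∉ B := by
          rintro ⟨y, hy, hyc⟩
          have hyc' : y = ⟨c, hcM⟩ := Subtype.ext hyc
          have hy' : (QuotientGroup.mk y : M ⧸ A') ∈ zpowers (QuotientGroup.mk m : M ⧸ A') := hy
          rw [hyc'] at hy'
          obtain ⟨k, hk⟩ := mem_zpowers_iff.mp hy'
          rcases Int.even_or_odd k with ⟨l, hl⟩ | ⟨l, hl⟩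
          · apply hcA
            rw [← hmem ⟨c, hcM⟩, ← hk, hl, zpow_add, ← (Commute.refl _).mul_zpow, hx2, one_zpow]
          · apply hne'
            rw [← hk, hl, zpow_add, zpow_mul, zpow_one]
            rw [show (QuotientGroup.mk m : M ⧸ A') ^ (2:ℤ) = 1 by rw [zpow_ofNat, pow_two, hx2],
              one_zpow, one_mul]
        exact hmA (hA.2 ⟨hAB hsA, hcB⟩ hAB hmB))
    refine le_trans ?_ h3
    refine Nat.card_le_card_of_injective (fun χ : (res M A').ker =>
      QuotientGroup.lift A' χ.1 ((mem_res_ker M A' χ.1).mp χ.2)) ?_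
    intro χ χ' h
    apply Subtype.ext
    have h4 : ∀ x : M, χ.1 x = χ'.1 x := by
      intro x
      have := DFunLike.congr_fun h (QuotientGroup.mk x)
      exact this
    exact MonoidHom.ext h4
  -- the last count
  have h3 : Nat.card ((X.map (res P M)).map (res M A')) ≤ 𝒜.ncard := by
    rw [← Nat.card_coe_set_eq]
    have hkey : ∀ φ : (X.map (res P M)).map (res M A'),
        ((φ.1.ker).map A'.subtype).map M.subtype ∈ 𝒜 := by
      rintro ⟨φ, hφ⟩
      obtain ⟨φ₁, ⟨ψ, hψ, rfl⟩, rfl⟩ := hφ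
      refine ⟨?_, ?_⟩
      · refine ⟨⟨s, hAM hsA⟩, ⟨⟨⟨s, hAM hsA⟩, hsA⟩, ?_, rfl⟩, rfl⟩
        exact hX ψ hψ
      · rintro ⟨y, ⟨⟨y', hy'⟩, _, rfl⟩, hyc⟩
        apply hcA
        rw [← hyc]
        exact hy'
    refine Nat.card_le_card_of_injective (fun φ : (X.map (res P M)).map (res M A') =>
      (⟨((φ.1.ker).map A'.subtype).map M.subtype, hkey φ⟩ : 𝒜)) ?_
    intro φ φ' h
    apply Subtype.ext
    apply eq_of_ker_eq
    have h4 : ((φ.1.ker).map A'.subtype).map M.subtype = ((φ'.1.ker).map A'.subtype).map M.subtype :=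
      congrArg (fun y : 𝒜 => y.1) h
    exact Subgroup.map_injective A'.subtype_injective (Subgroup.map_injective M.subtype_injective h4)
  have h4 := card_le_ker_mul _ _ (res P M) X
  have h5 := card_le_ker_mul _ _ (res M A') (X.map (res P M))
  have h6 := card_res_ker P M
  calc Nat.card X ≤ Nat.card (res P M).ker * Nat.card (X.map (res P M)) := h4
    _ ≤ 𝒜.ncard * (4 * 𝒜.ncard) :=
        Nat.mul_le_mul (h6.trans h1) (h5.trans (Nat.mul_le_mul h2 h3))
    _ = 4 * 𝒜.ncard ^ 2 := by ring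

theorem mem_sylow (C : Type) [Group C] [Finite C] (Q : Sylow 2 C) (s : C)
    (hs : ∀ x, s * x = x * s) (hs2 : s * s = 1) : s ∈ Q := by
  have h1 : IsPGroup 2 (zpowers s) := by
    rw [IsPGroup.iff_orderOf]
    rintro ⟨x, hx⟩
    obtain ⟨k, rfl⟩ := mem_zpowers_iff.mp hx
    have h2 : orderOf (⟨s ^ k, hx⟩ : zpowers s) ∣ 2 := by
      rw [orderOf_dvd_iff_pow_eq_one]
      apply Subtype.ext
      show (s ^ k) ^ 2 = 1
      rw [← zpow_natCast, ← zpow_mul, mul_comm, zpow_mul]
      rw [show s ^ ((2:ℕ):ℤ) = 1 by rw [zpow_natCast, pow_two, hs2], one_zpow]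
    rcases (Nat.dvd_prime Nat.prime_two).mp h2 with h | h
    · exact ⟨0, by rw [h]; rfl⟩
    · exact ⟨1, by rw [h]; rfl⟩
  have h2 : (zpowers s).Normal := by
    constructor
    intro n hn g
    obtain ⟨k, rfl⟩ := mem_zpowers_iff.mp hn
    have h3 : Commute (s ^ k) g := (show Commute s g from hs g).zpow_left k
    rw [← h3.eq, mul_assoc, mul_inv_cancel, mul_one]
    exact hn
  have h3 := Q.isPGroup'.to_sup_of_normal_right h1
  have h4 := Q.is_maximal' h3 le_sup_left
  have h5 : s ∈ ((Q : Subgroup C) ⊔ zpowers s) := (le_sup_right : zpowers s ≤ _) (mem_zpowers s)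
  rw [h4] at h5
  exact h5

theorem quad (hU : P_uniq) : P_quad := by
  intro C _ _ s c hs hc hs2 hc2 hc1 hcs
  classical
  obtain ⟨Q⟩ : Nonempty (Sylow 2 C) := inferInstance
  have : Fact (Nat.Prime 2) := ⟨Nat.prime_two⟩
  have hsQ := mem_sylow C Q s hs hs2
  have hcQ := mem_sylow C Q c hc hc2
  let P : Subgroup C := Q
  -- restriction
  let X₀ : Subgroup (C →* ℤˣ) :=
    { carrier := {ψ | ψ s = 1 ∧ ψ c = 1}
      one_mem' := ⟨rfl, rfl⟩
      mul_mem' := by
        rintro a b ⟨ha, ha'⟩ ⟨hb, hb'⟩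
        exact ⟨by rw [MonoidHom.mul_apply, ha, hb, one_mul],
          by rw [MonoidHom.mul_apply, ha', hb', one_mul]⟩
      inv_mem' := by
        rintro a ⟨ha, ha'⟩
        exact ⟨by rw [MonoidHom.inv_apply, ha, inv_one], by rw [MonoidHom.inv_apply, ha', inv_one]⟩ }
  have h0 : Nat.card {ψ : C →* ℤˣ // ψ s = 1 ∧ ψ c = 1} = Nat.card X₀ := rfl
  have h1 := card_le_ker_mul _ _ (res C P) X₀
  have h2 : Nat.card (res C P).ker = 1 := by
    rw [Nat.card_eq_one_iff_unique]
    refine ⟨⟨?_⟩, ⟨1⟩⟩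
    have key : ∀ ψ : (res C P).ker, ψ.1 = 1 := by
      rintro ⟨ψ, hψ⟩
      have h3 := (mem_res_ker C P ψ).mp hψ
      have h4 : ψ.ker.index ∣ P.index := Subgroup.index_dvd_of_le h3
      have h5 : ¬ 2 ∣ P.index := Q.not_dvd_index
      have h6 : ψ.ker.index ∣ 2 := by
        rw [Subgroup.index_ker]
        have h7 := Subgroup.card_subgroup_dvd_card ψ.range
        have h8 : Nat.card ℤˣ = 2 := by
          rw [Nat.card_eq_fintype_card]; rfl
        rwa [h8] at h7
      rcases (Nat.dvd_prime Nat.prime_two).mp h6 with h | h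
      · rw [Subgroup.index_eq_one] at h
        ext x
        have : x ∈ ψ.ker := by rw [h]; trivial
        exact congrArg Units.val (MonoidHom.mem_ker.mp this)
      · rw [h] at h4
        exact absurd h4 h5
    intro a b
    apply Subtype.ext
    rw [key a, key b]
  rw [h2, one_mul] at h1
  have h3 := quad_two hU P Q.isPGroup' ⟨s, hsQ⟩ ⟨c, hcQ⟩
    (fun x => Subtype.ext (hs x.1)) (fun x => Subtype.ext (hc x.1))
    (Subtype.ext hs2) (Subtype.ext hc2) (fun h => hc1 (congrArg Subtype.val h))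
    (fun h => hcs (congrArg Subtype.val h)) (X₀.map (res C P)) (by
      rintro ψ ⟨ψ₀, hψ₀, rfl⟩
      exact hψ₀.1)
  have h4 : {A : Subgroup P | (⟨s, hsQ⟩ : P) ∈ A ∧ (⟨c, hcQ⟩ : P) ∉ A}.ncard ≤
      {A : Subgroup C | s ∈ A ∧ c ∉ A}.ncard := by
    refine Set.ncard_le_ncard_of_injOn (fun A : Subgroup P => A.map P.subtype) ?_ ?_ (Set.toFinite _)
    · rintro A ⟨h5, h6⟩
      refine ⟨⟨⟨s, hsQ⟩, h5, rfl⟩, ?_⟩
      rintro ⟨y, hy, hyc⟩
      apply h6
      have : y = ⟨c, hcQ⟩ := Subtype.ext hyc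
      exact this ▸ hy
    · intro A _ B _ hAB
      exact Subgroup.map_injective P.subtype_injective hAB
  rw [h0]
  refine h1.trans (h3.trans ?_)
  exact Nat.mul_le_mul_left _ (Nat.pow_le_pow_left h4 2)

end Pool.Agent.Y903.KN.Quad
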